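import Pool.Agent.Lib.MP_fcdd89_co.Int

/-!
The integrality part of the b-conjecture: for all triples of partitions the Goulden-Jackson
coefficient is a polynomial in `β = α - 1` with integer coefficients.
-/

set_option autoImplicit false

namespace Pool.Agent.Results.MP_fcdd89_co.Integrality

open Pool.Agent.Lib.MP_fcdd89_co

theorem result (n : ℕ) (μ ν τ : n.Partition) :
    ∃ a : ℕ → ℤ, ∀ α : ℝ, 0 < α → (∃ θ, IsJack α θ) ∧ ∀ θ, IsJack α θ →
      hcoef α θ μ ν τ = Polynomial.aeval (α - 1)
        (∑ j ∈ Finset.range (n + 3) with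
            2 * j + (μ.parts.card + ν.parts.card + τ.parts.card) ≤ n + 2,
          Polynomial.C (a j) *
            Polynomial.X ^ (n + 2 - (μ.parts.card + ν.parts.card + τ.parts.card) - 2 * j) *
            (1 + Polynomial.X) ^ j : Polynomial ℤ) := by
  obtain ⟨a, ha⟩ := integral n μ ν τ
  refine ⟨a, fun α hα => ⟨exists_jack hα, fun θ h => ?_⟩⟩
  rw [ha α hα θ h, map_sum]
  exact Finset.sum_congr rfl fun j _ => by simp

end Pool.Agent.Results.MP_fcdd89_co.Integrality
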