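import Pool.Agent.Lib.MP_fcdd89_co.Tw.Out
import Pool.Agent.Lib.MP_fcdd89_co.Mp.Final

/-!
Both parts of the b-conjecture for all triples of partitions of `n` in which one of the three
partitions has a part of size at least `n - 2`.
-/

set_option autoImplicit false

namespace Pool.Agent.Results.MP_fcdd89_co.LargePart

open Pool.Agent.Lib.MP_fcdd89_co Pool.Agent.Lib.MP_fcdd89_co.Mp

open Classical in
theorem result : ∃ η : ∀ n : ℕ, RMap n → ℕ, (∀ n M, η n M = 0 ↔ M.Orientable) ∧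
    ∀ (n : ℕ) (μ ν τ : n.Partition) (k : ℕ), n ≤ k + 2 →
      (k ∈ μ.parts ∨ k ∈ ν.parts ∨ k ∈ τ.parts) → ∃ P : Polynomial ℕ, ∀ α : ℝ, 0 < α →
        (∃ θ, IsJack α θ) ∧ ∀ θ, IsJack α θ →
          hcoef α θ μ ν τ = Polynomial.aeval (α - 1) P ∧
          hcoef α θ μ ν τ = ∑ M : RMap n with M.Has μ ν τ, (α - 1) ^ η n M := by
  obtain ⟨η, h0, hη⟩ := final
  refine ⟨η, h0, fun n μ ν τ k hn hk => ?_⟩
  have h1 : 1 ≤ n := by
    rcases hk with h | h | h <;>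
    exact (Nat.Partition.parts_pos _ h).trans_le (Nat.Partition.le_of_mem_parts h)
  obtain ⟨P, hP⟩ := Tw.nat_large μ ν τ hn hk
  exact ⟨P, fun α hα => ⟨exists_jack hα, fun θ h => ⟨hP α hα θ h, hη n μ ν τ h1 ⟨P, hP⟩ α hα θ h⟩⟩⟩

end Pool.Agent.Results.MP_fcdd89_co.LargePart
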