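import Pool.Agent.Lib.MP_fcdd89_co.Tw.Marg

/-!
Positivity and integrality in the b-conjecture when one of the three partitions is summed over a
fixed length with a marked sub-partition of size two.
-/

set_option autoImplicit false

namespace Pool.Agent.Results.MP_fcdd89_co.TwoMarks

open Pool.Agent.Lib.MP_fcdd89_co

theorem result (n l : ℕ) (μ τ : n.Partition) (s : Equiv.Perm (Fin 3)) (κ : Nat.Partition 2) :
    ∃ P : Polynomial ℕ, ∀ α : ℝ, 0 < α → (∃ θ, IsJack α θ) ∧ ∀ θ, IsJack α θ →
      ∑ ν : n.Partition with ν.parts.card = l,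
        ((∏ i ∈ κ.parts.toFinset, i ^ κ.parts.count i *
          (ν.parts.count i).descFactorial (κ.parts.count i) : ℕ) : ℝ) *
        hcoef α θ (![μ, ν, τ] (s 0)) (![μ, ν, τ] (s 1)) (![μ, ν, τ] (s 2)) =
      n * Polynomial.aeval (α - 1) P := by
  obtain ⟨P, hP⟩ := Tw.marked_two (x := s.symm 0) (y := s.symm 2) (z := s.symm 1)
    (s.symm.injective.ne (by decide)) (s.symm.injective.ne (by decide))
    (s.symm.injective.ne (by decide)) n l (toF μ) (toF τ) κ
  refine ⟨P, fun α hα => ⟨exists_jack hα, fun θ h => ?_⟩⟩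
  rw [← hP α hα θ h]
  refine Finset.sum_congr rfl fun ν _ => ?_
  have := Equiv.sum_comp s fun b => Finsupp.mapDomain (Prod.mk (s.symm b)) (toF (![μ, ν, τ] b))
  simp only [Fin.sum_univ_three, Equiv.symm_apply_apply] at this
  rw [hcoef, expo3_eq, E3, this, E3, add_right_comm]
  rfl

end Pool.Agent.Results.MP_fcdd89_co.TwoMarks
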